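import Pool.Agent.Helper38.Curl.Rep

/-!
# Packet C-FP: correcting a potential near holes
-/

open MeasureTheory Set Filter Topology Metric
open scoped ContDiff RealInnerProductSpace
open Pool.Agent.Helper38.Curl

namespace Pool.Agent.Helper43.Curl

/-- The Poincaré lemma on a ball. -/
theorem exists_primitive {b : E → E} (hb : ContDiff ℝ ∞ b) (c : E) (ρ : ℝ)
    (h : ∀ x ∈ ball c ρ, curl b x = 0) :
    ∃ q : E → ℝ, (∀ x ∈ ball c ρ, gradient q x = b x) ∧ ContDiffOn ℝ ∞ q (ball c ρ) := by
  set om : E → E →L[ℝ] ℝ := fun x => innerSL ℝ (b x) with hom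
  have homd : ContDiff ℝ ∞ om := (innerSL ℝ : E →L[ℝ] E →L[ℝ] ℝ).contDiff.comp hb
  have hbd : Differentiable ℝ b := hb.differentiable (by simp)
  have homf : ∀ a x y, fderiv ℝ om a x y = ⟪fderiv ℝ b a x, y⟫ := by
    intro a x y
    have h1 : HasFDerivAt om ((innerSL ℝ : E →L[ℝ] E →L[ℝ] ℝ).comp (fderiv ℝ b a)) a :=
      (innerSL ℝ : E →L[ℝ] E →L[ℝ] ℝ).hasFDerivAt.comp a (hbd a).hasFDerivAt
    rw [h1.fderiv]
    rfl
  obtain ⟨q, hq⟩ := (convex_ball c ρ).exists_forall_hasFDerivAt_of_fderiv_symmetric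
    (𝕜 := ℝ) isOpen_ball (homd.differentiable (by simp)).differentiableOn (by
      intro a ha x y
      rw [homf, homf]
      have h1 := inner_fderiv_sub b a x y
      rw [h a ha, inner_zero_left] at h1
      linarith)
  have hgrad : ∀ x ∈ ball c ρ, gradient q x = b x := by
    intro x hx
    apply ext_inner_right ℝ
    intro v
    rw [inner_gradient, (hq x hx).fderiv]
    rfl
  refine ⟨q, hgrad, ?_⟩
  rw [contDiffOn_infty_iff_fderiv_of_isOpen isOpen_ball]
  refine ⟨fun x hx => (hq x hx).differentiableAt.differentiableWithinAt, ?_⟩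
  refine (homd.contDiffOn (s := ball c ρ)).congr ?_
  intro x hx
  exact (hq x hx).fderiv

/-- Correcting the potential near one ball. -/
theorem one_step {R : ℝ} {b : E → E} (hb : TestIn (ball 0 R) b) (c : E) {ρ η : ℝ} (hρ : 0 < ρ)
    (hη : 0 < η) (hin : closedBall c (ρ + η) ⊆ ball 0 R)
    (h : ∀ x ∈ ball c (ρ + η), curl b x = 0) :
    ∃ A, TestIn (ball 0 R) A ∧ curl A = curl b ∧ ip (curl A) A = ip (curl b) b ∧
      (∀ x ∈ closedBall c ρ, x ∉ tsupport A) ∧ tsupport A ⊆ tsupport b ∪ closedBall c (ρ + η) := by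
  obtain ⟨q, hq, hqs⟩ := exists_primitive hb.1.1 c (ρ + η) h
  let χ : ContDiffBump c := ⟨ρ + η / 3, ρ + 2 * η / 3, by positivity, by linarith⟩
  have hχt : tsupport χ = closedBall c (ρ + 2 * η / 3) := χ.tsupport_eq
  set ψ : E → ℝ := fun x => χ x * q x with hψ
  have hψt : tsupport ψ ⊆ closedBall c (ρ + 2 * η / 3) := by
    rw [← hχt]
    exact tsupport_mul_subset_left
  have hψc : HasCompactSupport ψ :=
    HasCompactSupport.of_support_subset_isCompact (isCompact_closedBall c (ρ + 2 * η / 3))
      (subset_trans (subset_tsupport ψ) hψt)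
  have hψs : ContDiff ℝ ∞ ψ := by
    rw [contDiff_iff_contDiffAt]
    intro x
    by_cases hx : x ∈ ball c (ρ + η)
    · exact χ.contDiff.contDiffAt.mul ((hqs x hx).contDiffAt (isOpen_ball.mem_nhds hx))
    · have hx' : x ∉ tsupport ψ := by
        intro hx2
        apply hx
        have := hψt hx2
        rw [mem_closedBall] at this
        rw [mem_ball]
        linarith
      have h1 : ψ =ᶠ[𝓝 x] fun _ => 0 := notMem_tsupport_iff_eventuallyEq.1 hx'
      exact contDiffAt_const.congr_of_eventuallyEq h1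
  have hT : TestF ψ := ⟨hψs, hψc⟩
  have hG := hT.gradient
  set A : E → E := fun x => b x + (-1 : ℝ) • gradient ψ x with hA
  have hbd : Differentiable ℝ b := hb.1.1.differentiable (by simp)
  have hGd : Differentiable ℝ (gradient ψ) := hG.1.differentiable (by simp)
  have hcurl : curl A = curl b := by
    funext x
    have hd2 : DifferentiableAt ℝ (fun y => (-1 : ℝ) • gradient ψ y) x :=
      (hGd x).fun_const_smul (-1 : ℝ)
    rw [hA, curl_add (hbd x) hd2, curl_const_smul (hGd x), curl_gradient hψs, smul_zero, add_zero]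
  have hAt : tsupport A ⊆ tsupport b ∪ closedBall c (ρ + 2 * η / 3) := by
    apply closure_minimal _ ((isClosed_tsupport b).union isClosed_closedBall)
    intro x hx
    by_contra hcon
    rw [mem_union, not_or] at hcon
    apply hx
    have h1 : b x = 0 := image_eq_zero_of_notMem_tsupport hcon.1
    have h2 : gradient ψ x = 0 := by
      apply image_eq_zero_of_notMem_tsupport
      intro h3
      exact hcon.2 (hψt (tsupport_gradient_subset ψ h3))
    simp [hA, h1, h2]
  have hsub : closedBall c (ρ + 2 * η / 3) ⊆ closedBall c (ρ + η) :=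
    closedBall_subset_closedBall (by linarith)
  refine ⟨A, ⟨⟨?_, ?_⟩, ?_⟩, hcurl, ?_, ?_, ?_⟩
  · exact hb.1.1.add (hG.1.const_smul (-1 : ℝ))
  · exact HasCompactSupport.of_support_subset_isCompact
      (hb.1.2.isCompact.union (isCompact_closedBall c (ρ + 2 * η / 3)))
      (subset_trans (subset_tsupport A) hAt)
  · intro x hx
    rcases hAt hx with h1 | h1
    · exact hb.2 h1
    · exact hin (hsub h1)
  · have hm : MemLp (fun x => (-1 : ℝ) • gradient ψ x) 2 := hG.memLp.const_smul (-1 : ℝ)
    rw [hcurl, hA, ip_add_right hb.1.curl.memLp hb.1.memLp hm,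
      ip_smul_right, ip_gradient, hb.1.pot.divFree ψ hT, mul_zero, add_zero]
  · intro x hx
    rw [notMem_tsupport_iff_eventuallyEq]
    have hx1 : ball c (ρ + η / 3) ∈ 𝓝 x := by
      apply isOpen_ball.mem_nhds
      rw [mem_closedBall] at hx
      rw [mem_ball]
      linarith
    filter_upwards [hx1] with y hy
    have hy2 : y ∈ ball c (ρ + η) := by
      rw [mem_ball] at hy ⊢
      linarith
    have h1 : ψ =ᶠ[𝓝 y] q := by
      filter_upwards [isOpen_ball.mem_nhds hy] with z hz
      have h2 : χ z = 1 := χ.one_of_mem_closedBall (ball_subset_closedBall hz)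
      simp [hψ, h2]
    have h3 : gradient ψ y = b y := by
      rw [← hq y hy2]
      unfold gradient
      rw [h1.fderiv_eq]
    simp [hA, h3]
  · exact hAt.trans (union_subset_union_right _ hsub)

/-- Packet C-FP. -/
theorem fix_pot {R : ℝ} (t : Finset (E × ℝ)) (hpos : ∀ p ∈ t, 0 < p.2)
    (hin : ∀ p ∈ t, closedBall p.1 p.2 ⊆ ball 0 R)
    (hd : (t : Set (E × ℝ)).PairwiseDisjoint fun p => closedBall p.1 p.2)
    {b : E → E} (hb : TestIn (ball 0 R) b) {δ : ℝ} (hδ : 0 < δ)
    (h : ∀ p ∈ t, ∀ x ∈ ball p.1 (p.2 + δ), curl b x = 0) :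
    ∃ A, TestIn (ball 0 R \ ⋃ p ∈ t, closedBall p.1 p.2) A ∧ curl A = curl b ∧
      ip (curl A) A = ip (curl b) b := by
  classical
  have key : ∀ s : Finset (E × ℝ), s ⊆ t → ∃ A, TestIn (ball 0 R) A ∧ curl A = curl b ∧
      ip (curl A) A = ip (curl b) b ∧ ∀ p ∈ s, ∀ x ∈ closedBall p.1 p.2, x ∉ tsupport A := by
    intro s
    induction s using Finset.induction_on with
    | empty => exact fun _ => ⟨b, hb, rfl, rfl, by simp⟩
    | insert p s hps ih =>
      intro hst
      obtain ⟨A', hA', hc', hi', hz'⟩ := ih (fun x hx => hst (Finset.mem_insert_of_mem hx))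
      have hpt : p ∈ t := hst (Finset.mem_insert_self _ _)
      have hpp : 0 < p.2 := hpos p hpt
      -- the open set around the ball
      set U : Set E := ball 0 R ∩ (⋃ p' ∈ s, closedBall p'.1 p'.2)ᶜ with hU
      have hUo : IsOpen U := by
        apply isOpen_ball.inter
        rw [isOpen_compl_iff]
        exact s.finite_toSet.isClosed_biUnion fun _ _ => isClosed_closedBall
      have hpU : closedBall p.1 p.2 ⊆ U := by
        intro x hx
        refine ⟨hin p hpt hx, ?_⟩
        intro hx2
        rw [mem_iUnion₂] at hx2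
        obtain ⟨p', hp', hxp'⟩ := hx2
        have hne : p ≠ p' := fun h => hps (h ▸ hp')
        have := hd hpt (hst (Finset.mem_insert_of_mem hp')) hne
        exact Set.disjoint_left.1 this hx hxp'
      obtain ⟨η₁, hη₁, hsub⟩ := (isCompact_closedBall p.1 p.2).exists_cthickening_subset_open
        hUo hpU
      rw [cthickening_closedBall hη₁.le hpp.le] at hsub
      set η := min η₁ δ with hη
      have hη0 : 0 < η := lt_min hη₁ hδ
      have hsub2 : closedBall p.1 (p.2 + η) ⊆ U := by
        refine subset_trans (closedBall_subset_closedBall ?_) hsub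
        have := min_le_left η₁ δ
        linarith
      obtain ⟨A, hA, hc, hi, hz, hts⟩ := one_step hA' p.1 hpp hη0
        (fun x hx => (hsub2 hx).1) (by
          intro x hx
          rw [hc']
          apply h p hpt
          rw [mem_ball] at hx ⊢
          have := min_le_right η₁ δ
          linarith)
      refine ⟨A, hA, hc.trans hc', hi.trans hi', ?_⟩
      intro p' hp' x hx hx2
      rcases Finset.mem_insert.1 hp' with rfl | hp'
      · exact hz x hx hx2
      · rcases hts hx2 with h1 | h1
        · exact hz' p' hp' x hx h1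
        · exact (hsub2 h1).2 (mem_biUnion hp' hx)
  obtain ⟨A, hA, hc, hi, hz⟩ := key t (Finset.Subset.refl t)
  refine ⟨A, ⟨hA.1, ?_⟩, hc, hi⟩
  intro x hx
  refine ⟨hA.2 hx, ?_⟩
  intro hx2
  rw [mem_iUnion₂] at hx2
  obtain ⟨p, hp, hxp⟩ := hx2
  exact hz p hp x hxp hx

end Pool.Agent.Helper43.Curl
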