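import Pool.Agent.Helper43.Curl.Low2
import Pool.Agent.Helper66.Curl.P1

/-!
# Packet C-LOW: exact form, with the remaining packets as hypotheses in their exact form
-/

open MeasureTheory Set Filter Topology Metric
open scoped ContDiff RealInnerProductSpace
open Pool.Agent.Helper38.Curl

namespace Pool.Agent.Helper43.Curl

theorem low_of
    (hTube : ∀ {e q : E} (_ : ‖e‖ = 1) (_ : ⟪e, q⟫ = 0) {δ ε : ℝ} (_ : 0 < δ)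
      (_ : 2 * δ < ‖q‖) (_ : 0 < ε),
      ∃ (b r : E → E) (Z C D : Set E), Pot b r ∧ IsOpen Z ∧ 0 < volume.real Z ∧ IsCompact C ∧
        IsCompact D ∧ Z ⊆ C ∧ VanOff (C ∪ D) r ∧
        (∀ z ∈ Z, r z = e) ∧ (∀ z ∈ Z, ‖z - ⟪e, z⟫ • e‖ < δ) ∧
        (∀ z ∈ D, ‖z - q - ⟪e, z⟫ • e‖ < δ) ∧
        (∀ z, ‖z - ⟪e, z⟫ • e‖ < δ → 0 ≤ ⟪r z, e⟫) ∧
        (∀ z, δ ≤ ‖z - ⟪e, z⟫ • e‖ → δ ≤ ‖z - q - ⟪e, z⟫ • e‖ → ⟪r z, e⟫ = 0) ∧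
        (∫ z, ⟪r z, e⟫ = 0) ∧
        volume.real C ≤ (1 + ε) * volume.real Z ∧ sq r ≤ (1 + ε) * volume.real Z)
    (hCut : ∃ C₀ : ℝ, 0 < C₀ ∧ ∀ (z : E) (τ : ℝ), 0 < τ → ∀ f : E → E,
      MemLp f 2 (volume.restrict (ball z (2 * τ))) → DivFreeIn (ball z (2 * τ)) f →
      ∃ a r, Pot a r ∧ VanOff (closedBall z (2 * τ)) r ∧ (∀ᵐ x, x ∈ ball z τ → r x = f x) ∧
        sq r ≤ C₀ * sqOn (ball z (2 * τ)) f)
    (hScale : ∀ {b r : E → E} (_ : Pot b r) (x : E) {s : ℝ} (_ : 0 < s),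
      Pot (fun y => s • b (s⁻¹ • (y - x))) (fun y => r (s⁻¹ • (y - x))))
    (hSq : ∀ (r : E → E) (x : E) {s : ℝ} (_ : 0 < s),
      sq (fun y => r (s⁻¹ • (y - x))) = s ^ 3 * sq r)
    (hBlM : ∀ {u : E → E} (_ : MemLp u 2) (x : E) {s : ℝ} (_ : 0 < s), MemLp (bl u x s) 2)
    (hBlD : ∀ {u : E → E} (_ : ∀ η, TestF η → ∫ x, fderiv ℝ η x (u x) = 0) (x : E) {s : ℝ}
      (_ : 0 < s) (η : E → ℝ) (_ : TestF η), ∫ z, fderiv ℝ η z (bl u x s z) = 0)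
    (hNeedle : ∀ {Ω : Set E} {u a : E → E} {Λ : ℝ} (_ : Crit Ω u a Λ) {b r : E → E}
      (_ : Pot b r) (x : E) {s : ℝ} (_ : 0 < s) (_ : VanOff {z | x + s • z ∈ closure Ω} r)
      (_ : s ^ 3 * sq r ≤ 3) {Z : Set E} (_ : IsOpen Z) (_ : ∀ z ∈ Z, x + s • z ∈ Ω)
      (_ : ∀ᵐ z, z ∈ Z → bl u x s z + r z = 0),
      Λ / 3 * volume.real Z * (√3 - √(s ^ 3 * sq r)) ^ 2 ≤ Λ * sq r + s * |ip r b|)
    (hStrong : ∀ {Ω : Set E} {u a : E → E} {Λ : ℝ} (_ : Crit Ω u a Λ) {r₀ c₀ CU : ℝ}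
      (_ : Growth Ω u CU) {x : ℕ → E} {s : ℕ → ℝ} {ν : E} {g : E → ℝ} {V : E → E}
      (_ : Bl Ω u r₀ c₀ x s ν g V) {z : E} {ρ : ℝ} (_ : 0 < ρ)
      (_ : closedBall z ρ ⊆ {z | 0 < g z}),
      Tendsto (fun n => sqOn (ball z (ρ / 2)) (fun y => bl u (x n) (s n) y - V y)) atTop (𝓝 0) ∧
        WH (ball z ρ) V)
    {Ω : Set E} {u a : E → E} {Λ : ℝ} (hc : Crit Ω u a Λ) {r₀ c₀ CU : ℝ}
    (hG : Growth Ω u CU) {x : ℕ → E} {s : ℕ → ℝ} {ν : E} {g : E → ℝ} {V F : E → E}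
    (h : Bl Ω u r₀ c₀ x s ν g V) (hF : Rep g V F) {z : E} (hz : 0 < g z) : 1 ≤ ‖F z‖ := by
  refine low_aux ?_ hCut (fun c ρ hρ v hv => Pool.Agent.Helper66.Curl.pot_exists hρ hv)
    (fun b r hp x s hs => hScale hp x hs) (fun r x s hs => hSq r x hs) hc
    (fun x s hs => hBlM hc.pot.memLp₂ x hs)
    (fun x s hs η hη => hBlD hc.pot.divFree x hs η hη)
    (fun b r hp x s hs hv h3 Z hZ hZΩ h0 => hNeedle hc hp x hs hv h3 hZ hZΩ h0)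
    h hF (fun z ρ hρ hz => (hStrong hc hG h hρ hz).1) hz
  intro e q he hq δ ε hδ hδq hε
  obtain ⟨b, r, Z, C, D, hp, hZo, hZv, hC, hD, hZC, hvan, hre, -, -, -, -, -, -, hsq⟩ :=
    hTube he hq hδ hδq hε
  exact ⟨b, r, Z, C, D, hp, hZo, hZv, hC, hD, hZC, hvan, hre, hsq⟩

end Pool.Agent.Helper43.Curl
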