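import Pool.Agent.Helper38.Curl.Rep

/-!
# Packet C-LOW, auxiliary facts
-/

open MeasureTheory Set Filter Topology Metric
open scoped ContDiff RealInnerProductSpace
open Pool.Agent.Helper38.Curl

namespace Pool.Agent.Helper43.Curl

theorem exists_unit_orth (e : E) (he : ‖e‖ = 1) : ∃ q : E, ‖q‖ = 1 ∧ ⟪e, q⟫ = 0 := by
  have h : ∃ q' : E, q' ≠ 0 ∧ ⟪e, q'⟫ = 0 := by
    by_contra hcon
    push Not at hcon
    have h0 : cr e (bv 0) = 0 := by
      by_contra h
      apply hcon _ h
      rw [← inner_cr, cr_self, inner_zero_left]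
    have h1 : cr e (bv 1) = 0 := by
      by_contra h
      apply hcon _ h
      rw [← inner_cr, cr_self, inner_zero_left]
    have a1 : e 1 = 0 := by
      have := congrArg (fun v : E => v 2) h0
      simpa [bv] using this
    have a2 : e 2 = 0 := by
      have := congrArg (fun v : E => v 1) h0
      simpa [bv] using this
    have a0 : e 0 = 0 := by
      have := congrArg (fun v : E => v 2) h1
      simpa [bv] using this
    have : e = 0 := ext3 (by simpa using a0) (by simpa using a1) (by simpa using a2)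
    rw [this, norm_zero] at he
    exact zero_ne_one he
  obtain ⟨q', hq', ho⟩ := h
  refine ⟨‖q'‖⁻¹ • q', ?_, ?_⟩
  · rw [norm_smul, norm_inv, norm_norm, inv_mul_cancel₀ (norm_ne_zero_iff.2 hq')]
  · rw [inner_smul_right, ho, mul_zero]

theorem norm_bv (i : Fin 3) : ‖bv i‖ = 1 := by
  simp [bv]

theorem exists_unit_dir (c : E) : ∃ e : E, ‖e‖ = 1 ∧ c = ‖c‖ • e := by
  by_cases hc : c = 0
  · exact ⟨bv 0, norm_bv 0, by simp [hc]⟩
  · refine ⟨‖c‖⁻¹ • c, ?_, ?_⟩
    · rw [norm_smul, norm_inv, norm_norm, inv_mul_cancel₀ (norm_ne_zero_iff.2 hc)]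
    · rw [smul_smul, mul_inv_cancel₀ (norm_ne_zero_iff.2 hc), one_smul]

/-- The integral of the derivative of a test function vanishes. -/
theorem integral_fderiv_const {η : E → ℝ} (hη : TestF η) (c : E) :
    Integrable (fun x => fderiv ℝ η x c) ∧ ∫ x, fderiv ℝ η x c = 0 := by
  have hd : Differentiable ℝ η := hη.1.differentiable (by simp)
  have hc1 : Continuous (fun x => fderiv ℝ η x c) :=
    (hη.1.continuous_fderiv (by simp)).clm_apply continuous_const
  have hs : HasCompactSupport (fun x => fderiv ℝ η x c) := by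
    have := hη.2.fderiv (𝕜 := ℝ)
    exact this.comp_left (g := fun L : E →L[ℝ] ℝ => L c) (by simp)
  have hi : Integrable (fun x => fderiv ℝ η x c) := hc1.integrable_of_hasCompactSupport hs
  refine ⟨hi, ?_⟩
  have h := integral_mul_fderiv_eq_neg_fderiv_mul_of_integrable (μ := (volume : Measure E))
    (𝕜 := ℝ) (f := η) (g := fun _ => (1 : ℝ)) (v := c)
    (by simpa using hi) (by simp)
    (by simpa using hη.1.continuous.integrable_of_hasCompactSupport hη.2)
    (fun x _ => hd x) (fun x _ => differentiableAt_const _)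
  simp only [fderiv_fun_const, Pi.zero_apply, ContinuousLinearMap.zero_apply, mul_zero,
    integral_zero, mul_one] at h
  linarith

/-- Volume of a scaled and translated set. -/
theorem volume_real_preimage (Z : Set E) (z : E) {σ : ℝ} (hσ : 0 < σ) :
    volume.real ((fun y => σ⁻¹ • (y - z)) ⁻¹' Z) = σ ^ 3 * volume.real Z := by
  have h1 : (fun y => σ⁻¹ • (y - z)) ⁻¹' Z
      = (fun y => y + (-z)) ⁻¹' ((fun y => σ⁻¹ • y) ⁻¹' Z) := by
    ext y
    simp [sub_eq_add_neg]
  have h2 : volume ((fun y : E => σ⁻¹ • y) ⁻¹' Z)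
      = ENNReal.ofReal |((σ⁻¹) ^ Module.finrank ℝ E)⁻¹| * volume Z :=
    Measure.addHaar_preimage_smul volume (inv_ne_zero hσ.ne') Z
  have h3 : Module.finrank ℝ E = 3 := by simp
  rw [measureReal_def, measureReal_def, h1, measure_preimage_add_right, h2, h3,
    ENNReal.toReal_mul, ENNReal.toReal_ofReal (abs_nonneg _)]
  congr 1
  rw [inv_pow, inv_inv, abs_of_pos (by positivity)]

theorem volume_real_ball (z : E) {r : ℝ} (hr : 0 ≤ r) :
    volume.real (ball z r) = r ^ 3 * volume.real (ball (0 : E) 1) := by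
  have h3 : Module.finrank ℝ E = 3 := by simp
  rw [measureReal_def, measureReal_def, Measure.addHaar_ball volume z hr, h3,
    ENNReal.toReal_mul, ENNReal.toReal_ofReal (by positivity)]

theorem mem_of_sd_pos {Ω : Set E} {y : E} (h : 0 < sd Ω y) : y ∈ Ω := by
  by_contra hy
  have h1 : infDist y Ωᶜ = 0 := infDist_zero_of_mem hy
  have h2 : 0 ≤ infDist y Ω := infDist_nonneg
  unfold sd at h
  linarith

/-- Eventually, compact balls of `{g > 0}` are mapped into `Ω`. -/
theorem eventually_subset {Ω : Set E} {u : E → E} {r₀ c₀ : ℝ} {x : ℕ → E} {s : ℕ → ℝ} {ν : E}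
    {g : E → ℝ} {V : E → E} (h : Bl Ω u r₀ c₀ x s ν g V) {z : E} {ρ m : ℝ} (hm : 0 < m)
    (hz : ∀ z' ∈ closedBall z ρ, m ≤ g z') :
    ∀ᶠ n in atTop, ∀ z' ∈ closedBall z ρ, x n + s n • z' ∈ Ω := by
  have h1 := h.conv (‖z‖ + ρ)
  rw [Metric.tendstoUniformlyOn_iff] at h1
  filter_upwards [h1 m hm] with n hn z' hz'
  have h2 : z' ∈ closedBall (0 : E) (‖z‖ + ρ) := by
    rw [mem_closedBall, dist_zero_right]
    rw [mem_closedBall, dist_eq_norm] at hz'
    have h3 : z' = z + (z' - z) := by abel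
    calc ‖z'‖ = ‖z + (z' - z)‖ := by rw [← h3]
      _ ≤ ‖z‖ + ‖z' - z‖ := norm_add_le _ _
      _ ≤ ‖z‖ + ρ := by linarith
  have h4 := hn z' h2
  rw [Real.dist_eq] at h4
  have h5 := hz z' hz'
  have h6 : 0 < sd Ω (x n + s n • z') / s n := by
    have := (abs_lt.1 h4).2
    linarith
  apply mem_of_sd_pos
  have h7 := h.spos n
  have h8 := mul_pos h6 h7
  rwa [div_mul_cancel₀ _ h7.ne'] at h8

end Pool.Agent.Helper43.Curl
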