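import Pool.Agent.Helper43.Curl.Low0

/-!
# Packet C-LOW: lower bound for blow-ups (needle variation)
-/

open MeasureTheory Set Filter Topology Metric
open scoped ContDiff RealInnerProductSpace
open Pool.Agent.Helper38.Curl

namespace Pool.Agent.Helper43.Curl

theorem ae_scale {P : E → Prop} (h : ∀ᵐ x, P x) (z : E) {σ : ℝ} (hσ : 0 < σ) :
    ∀ᵐ y, P (σ⁻¹ • (y - z)) := by
  rw [ae_iff] at h ⊢
  have h1 : {y : E | ¬ P (σ⁻¹ • (y - z))}
      = (fun y => y + (-z)) ⁻¹' ((fun y => σ⁻¹ • y) ⁻¹' {x | ¬ P x}) := by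
    ext y
    simp [sub_eq_add_neg]
  rw [h1, measure_preimage_add_right,
    Measure.addHaar_preimage_smul volume (inv_ne_zero hσ.ne'), h, mul_zero]

/-- The final numerical contradiction. -/
theorem numeric {c ε V₀ K m S : ℝ} (hc : 0 ≤ c) (hε : 0 < ε) (hV : 0 < V₀) (hK : 0 ≤ K)
    (hS : 0 < S) (hcε : c ^ 2 * (1 + ε) < 1) (hm0 : 0 ≤ m)
    (hm : m ≤ (√V₀ - c * √((1 + ε) * V₀)) / (2 * (K + 1))) {B : ℝ} (hB0 : 0 ≤ B)
    (hB : B ≤ √S * (K * m + c * √((1 + ε) * V₀))) (h : S * V₀ ≤ B ^ 2) : False := by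
  have h1 : c * √((1 + ε) * V₀) < √V₀ := by
    have h2 : c * √((1 + ε) * V₀) = √(c ^ 2 * (1 + ε) * V₀) := by
      rw [mul_assoc (c ^ 2), Real.sqrt_mul (sq_nonneg c), Real.sqrt_sq hc]
    rw [h2]
    apply Real.sqrt_lt_sqrt (by positivity)
    nlinarith
  have h3 : K * m < √V₀ - c * √((1 + ε) * V₀) := by
    set α := √V₀ - c * √((1 + ε) * V₀) with hα
    have hα0 : 0 < α := by linarith
    rw [le_div_iff₀ (by positivity)] at hm
    nlinarith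
  have h4 : B < √S * √V₀ := by
    refine lt_of_le_of_lt hB ?_
    apply mul_lt_mul_of_pos_left _ (Real.sqrt_pos.2 hS)
    linarith
  have h5 : B ^ 2 < (√S * √V₀) ^ 2 := by
    apply pow_lt_pow_left₀ h4 hB0 (by norm_num)
  rw [mul_pow, Real.sq_sqrt hS.le, Real.sq_sqrt hV.le] at h5
  linarith

/-- Passing to the limit in the needle inequality. -/
theorem limit_ineq {Λ v τ B' : ℝ} (hΛ : 0 < Λ) {s B : ℕ → ℝ}
    (hs0 : Tendsto s atTop (𝓝 0)) (hB : Tendsto B atTop (𝓝 B'))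
    (h : ∀ᶠ n in atTop, Λ / 3 * v * (√3 - √(s n ^ 3 * B n ^ 2)) ^ 2
      ≤ (Λ + s n * (4 * τ)) * B n ^ 2) : v ≤ B' ^ 2 := by
  have h1 : Tendsto (fun n => Λ / 3 * v * (√3 - √(s n ^ 3 * B n ^ 2)) ^ 2) atTop
      (𝓝 (Λ / 3 * v * (√3 - √(0 ^ 3 * B' ^ 2)) ^ 2)) := by
    have h2 : Tendsto (fun n => √(s n ^ 3 * B n ^ 2)) atTop (𝓝 (√(0 ^ 3 * B' ^ 2))) :=
      (Real.continuous_sqrt.tendsto _).comp ((hs0.pow 3).mul (hB.pow 2))
    exact ((tendsto_const_nhds.sub h2).pow 2).const_mul _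
  have h3 : Tendsto (fun n => (Λ + s n * (4 * τ)) * B n ^ 2) atTop
      (𝓝 ((Λ + 0 * (4 * τ)) * B' ^ 2)) :=
    ((hs0.mul_const _).const_add _).mul (hB.pow 2)
  have h4 := le_of_tendsto_of_tendsto h1 h3 h
  have h5 : √(3 : ℝ) ^ 2 = 3 := Real.sq_sqrt (by norm_num)
  have h6 : (0 : ℝ) ^ 3 * B' ^ 2 = 0 := by ring
  rw [h6, Real.sqrt_zero, sub_zero, h5, zero_mul, add_zero] at h4
  have h7 : Λ * v ≤ Λ * B' ^ 2 := by linarith
  exact le_of_mul_le_mul_left h7 hΛ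

theorem memLp_const_ball (c z : E) (ρ : ℝ) :
    MemLp (fun _ : E => c) 2 (volume.restrict (ball z ρ)) := by
  have : IsFiniteMeasure ((volume : Measure E).restrict (ball z ρ)) :=
    ⟨by rw [Measure.restrict_apply_univ]; exact measure_ball_lt_top⟩
  exact memLp_const c

theorem sqOn_const_le {V F : E → E} {c z : E} {ρ m : ℝ} {g : E → ℝ}
    (hV : MemLp V 2 (volume.restrict (ball z ρ)))
    (hae : ∀ᵐ x, 0 < g x → F x = V x) (hg : ∀ x ∈ ball z ρ, 0 < g x)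
    (hF : ∀ x ∈ ball z ρ, ‖F x - c‖ ≤ m) :
    sqOn (ball z ρ) (fun y => V y - c) ≤ m ^ 2 * volume.real (ball z ρ) := by
  have h1 : MemLp (fun y => V y - c) 2 (volume.restrict (ball z ρ)) :=
    hV.sub (memLp_const_ball c z ρ)
  have h2 : sqOn (ball z ρ) (fun y => V y - c) ≤ ∫ _ in ball z ρ, m ^ 2 := by
    unfold sqOn
    apply integral_mono_ae (integrableOn_norm_sq h1)
    · exact integrableOn_const measure_ball_lt_top.ne
    · rw [Filter.EventuallyLE, ae_restrict_iff' measurableSet_ball]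
      filter_upwards [hae] with y hy hyb
      rw [← hy (hg y hyb)]
      have := hF y hyb
      gcongr
  refine h2.trans ?_
  rw [setIntegral_const, smul_eq_mul, mul_comm]

theorem abs_ip_le_of {r b : E → E} (hp : Pot b r) {τ : ℝ} (hτ : 0 < τ)
    (h : sq b ≤ 4 * (2 * τ) ^ 2 * sq r) : |ip r b| ≤ 4 * τ * sq r := by
  have h0 := sq_nonneg' r
  refine (abs_ip_le hp.memLp₂ hp.memLp₁).trans ?_
  have h1 : √(sq b) ≤ 4 * τ * √(sq r) := by
    have h2 : √(sq b) ≤ √((4 * τ) ^ 2 * sq r) := by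
      apply Real.sqrt_le_sqrt
      linarith [h]
    rwa [Real.sqrt_mul (sq_nonneg _), Real.sqrt_sq (by positivity)] at h2
  calc √(sq r) * √(sq b) ≤ √(sq r) * (4 * τ * √(sq r)) := by gcongr
    _ = 4 * τ * (√(sq r) * √(sq r)) := by ring
    _ = 4 * τ * sq r := by rw [Real.mul_self_sqrt h0]

theorem needle_mono {Λ v s τ S B I : ℝ} (hΛ : 0 < Λ) (hv : 0 ≤ v) (hs : 0 < s) (hτ : 0 < τ)
    (hS : 0 ≤ S) (hB : 0 ≤ B) (hSB : √S ≤ B) (h3 : s ^ 3 * B ^ 2 ≤ 3)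
    (hI : I ≤ 4 * τ * S)
    (h : Λ / 3 * v * (√3 - √(s ^ 3 * S)) ^ 2 ≤ Λ * S + s * I) :
    Λ / 3 * v * (√3 - √(s ^ 3 * B ^ 2)) ^ 2 ≤ (Λ + s * (4 * τ)) * B ^ 2 := by
  have hSB2 : S ≤ B ^ 2 := by
    have := Real.sq_sqrt hS
    nlinarith [Real.sqrt_nonneg S]
  have h4 : √(s ^ 3 * S) ≤ √(s ^ 3 * B ^ 2) := by
    apply Real.sqrt_le_sqrt
    gcongr
  have h5 : √(s ^ 3 * B ^ 2) ≤ √3 := Real.sqrt_le_sqrt h3
  have h6 : (√3 - √(s ^ 3 * B ^ 2)) ^ 2 ≤ (√3 - √(s ^ 3 * S)) ^ 2 := by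
    apply pow_le_pow_left₀ (by linarith)
    linarith
  calc Λ / 3 * v * (√3 - √(s ^ 3 * B ^ 2)) ^ 2 ≤ Λ / 3 * v * (√3 - √(s ^ 3 * S)) ^ 2 := by
        gcongr
    _ ≤ Λ * S + s * I := h
    _ ≤ Λ * S + s * (4 * τ * S) := by gcongr
    _ = (Λ + s * (4 * τ)) * S := by ring
    _ ≤ (Λ + s * (4 * τ)) * B ^ 2 := by gcongr

end Pool.Agent.Helper43.Curl
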