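import Pool.Agent.Helper43.Curl.Low1

/-!
# Packet C-LOW: the main argument, with the other packets as hypotheses
-/

open MeasureTheory Set Filter Topology Metric
open scoped ContDiff RealInnerProductSpace
open Pool.Agent.Helper38.Curl

namespace Pool.Agent.Helper43.Curl

theorem low_aux
    (hTube : ∀ (e q : E), ‖e‖ = 1 → ⟪e, q⟫ = 0 → ∀ (δ ε : ℝ), 0 < δ → 2 * δ < ‖q‖ → 0 < ε →
      ∃ (b r : E → E) (Z C D : Set E), Pot b r ∧ IsOpen Z ∧ 0 < volume.real Z ∧ IsCompact C ∧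
        IsCompact D ∧ Z ⊆ C ∧ VanOff (C ∪ D) r ∧ (∀ z ∈ Z, r z = e) ∧
        sq r ≤ (1 + ε) * volume.real Z)
    (hCut : ∃ C₀ : ℝ, 0 < C₀ ∧ ∀ (z : E) (τ : ℝ), 0 < τ → ∀ f : E → E,
      MemLp f 2 (volume.restrict (ball z (2 * τ))) → DivFreeIn (ball z (2 * τ)) f →
      ∃ a r, Pot a r ∧ VanOff (closedBall z (2 * τ)) r ∧ (∀ᵐ x, x ∈ ball z τ → r x = f x) ∧
        sq r ≤ C₀ * sqOn (ball z (2 * τ)) f)
    (hPot : ∀ (c : E) (ρ : ℝ), 0 < ρ → ∀ v : E → E, Sol (closedBall c ρ) v →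
      ∃ a, Pot a v ∧ VanOff (closedBall c ρ) a ∧ sq a ≤ 4 * ρ ^ 2 * sq v)
    (hScale : ∀ (b r : E → E), Pot b r → ∀ (x : E) (s : ℝ), 0 < s →
      Pot (fun y => s • b (s⁻¹ • (y - x))) (fun y => r (s⁻¹ • (y - x))))
    (hSq : ∀ (r : E → E) (x : E) (s : ℝ), 0 < s → sq (fun y => r (s⁻¹ • (y - x))) = s ^ 3 * sq r)
    {Ω : Set E} {u a : E → E} {Λ : ℝ} (hc : Crit Ω u a Λ)
    (hBlM : ∀ (x : E) (s : ℝ), 0 < s → MemLp (bl u x s) 2)
    (hBlD : ∀ (x : E) (s : ℝ), 0 < s → ∀ η, TestF η → ∫ z, fderiv ℝ η z (bl u x s z) = 0)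
    (hNeedle : ∀ (b r : E → E), Pot b r → ∀ (x : E) (s : ℝ), 0 < s →
      VanOff {z | x + s • z ∈ closure Ω} r → s ^ 3 * sq r ≤ 3 → ∀ Z : Set E, IsOpen Z →
      (∀ z ∈ Z, x + s • z ∈ Ω) → (∀ᵐ z, z ∈ Z → bl u x s z + r z = 0) →
      Λ / 3 * volume.real Z * (√3 - √(s ^ 3 * sq r)) ^ 2 ≤ Λ * sq r + s * |ip r b|)
    {r₀ c₀ : ℝ} {x : ℕ → E} {s : ℕ → ℝ} {ν : E} {g : E → ℝ} {V F : E → E}
    (h : Bl Ω u r₀ c₀ x s ν g V) (hF : Rep g V F)
    (hStrong : ∀ (z : E) (ρ : ℝ), 0 < ρ → closedBall z ρ ⊆ {z | 0 < g z} →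
      Tendsto (fun n => sqOn (ball z (ρ / 2)) (fun y => bl u (x n) (s n) y - V y)) atTop (𝓝 0))
    {z : E} (hz : 0 < g z) : 1 ≤ ‖F z‖ := by
  by_contra hcon
  push Not at hcon
  set c := F z with hcdef
  obtain ⟨e, he, hce⟩ := exists_unit_dir c
  obtain ⟨q, hq, hqo⟩ := exists_unit_orth e he
  have hc0 : 0 ≤ ‖c‖ := norm_nonneg c
  obtain ⟨ε, hε, hεc⟩ : ∃ ε : ℝ, 0 < ε ∧ ‖c‖ ^ 2 * (1 + ε) < 1 := by
    have h1 : ‖c‖ ^ 2 < 1 := by nlinarith
    have h0 : 0 ≤ ‖c‖ ^ 2 := sq_nonneg _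
    exact ⟨(1 - ‖c‖ ^ 2) / 2, by linarith, by nlinarith⟩
  obtain ⟨b, r, Z, C, D, hp, hZo, hZv, hC, hD, hZC, hvan, hre, hsq⟩ :=
    hTube e q he hqo (1 / 4) ε (by norm_num) (by rw [hq]; norm_num) hε
  obtain ⟨L, hL, hCD⟩ := (hC.union hD).isBounded.subset_closedBall_lt 0 (0 : E)
  obtain ⟨C₀, hC₀, hcut⟩ := hCut
  set M : ℝ := L + 1 with hM
  have hM0 : 0 < M := by positivity
  set V₀ : ℝ := volume.real Z with hV₀
  set v₁ : ℝ := volume.real (ball (0 : E) 1) with hv₁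
  have hv₁0 : 0 ≤ v₁ := measureReal_nonneg
  set K : ℝ := √C₀ * √(8 * M ^ 3 * v₁) with hK
  have hK0 : 0 ≤ K := by positivity
  set m : ℝ := (√V₀ - ‖c‖ * √((1 + ε) * V₀)) / (2 * (K + 1)) with hm
  have hm0 : 0 < m := by
    apply div_pos _ (by positivity)
    have h2 : ‖c‖ * √((1 + ε) * V₀) = √(‖c‖ ^ 2 * (1 + ε) * V₀) := by
      rw [mul_assoc (‖c‖ ^ 2), Real.sqrt_mul (sq_nonneg ‖c‖), Real.sqrt_sq hc0]
    rw [h2, sub_pos]
    apply Real.sqrt_lt_sqrt (by positivity)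
    nlinarith
  -- continuity of `F` at `z`
  have hgc : Continuous g := h.lip.continuous
  have hopen : IsOpen {z | 0 < g z} := isOpen_lt continuous_const hgc
  have hFc : ContinuousAt F z := hF.cont.continuousAt (hopen.mem_nhds hz)
  obtain ⟨ρ₁, hρ₁, hF1⟩ : ∃ ρ₁ > 0, ∀ z' ∈ ball z ρ₁, ‖F z' - c‖ ≤ m := by
    have := Metric.continuousAt_iff.1 hFc m hm0
    obtain ⟨ρ₁, hρ₁, h1⟩ := this
    refine ⟨ρ₁, hρ₁, fun z' hz' => ?_⟩
    have h2 := h1 (mem_ball.1 hz')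
    rw [dist_eq_norm] at h2
    exact h2.le
  -- the scale
  set τ : ℝ := min (ρ₁ / 2) (g z / 8) with hτ
  have hτ0 : 0 < τ := lt_min (by positivity) (by positivity)
  have hτ1 : 2 * τ ≤ ρ₁ := by
    have := min_le_left (ρ₁ / 2) (g z / 8)
    linarith
  have hτ2 : 4 * τ ≤ g z / 2 := by
    have := min_le_right (ρ₁ / 2) (g z / 8)
    linarith
  set σ : ℝ := τ / M with hσ
  have hσ0 : 0 < σ := by positivity
  have hτσ : τ = M * σ := by
    rw [hσ]
    field_simp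
  have hgball : ∀ z' ∈ closedBall z (4 * τ), g z / 2 ≤ g z' := by
    intro z' hz'
    have h1 := h.lip.dist_le_mul z' z
    rw [NNReal.coe_one, one_mul, Real.dist_eq] at h1
    rw [mem_closedBall] at hz'
    have h2 := (abs_le.1 (h1.trans hz')).1
    linarith
  have hsub4 : closedBall z (4 * τ) ⊆ {z | 0 < g z} := fun z' hz' =>
    lt_of_lt_of_le (by positivity) (hgball z' hz')
  have hsub2 : closedBall z (2 * τ) ⊆ closedBall z (4 * τ) :=
    closedBall_subset_closedBall (by linarith)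
  have hgpos : ∀ z' ∈ ball z (2 * τ), 0 < g z' := fun z' hz' =>
    hsub4 (hsub2 (ball_subset_closedBall hz'))
  -- the fields
  set v : ℕ → E → E := fun n => bl u (x n) (s n) with hv
  have hvM : ∀ n, MemLp (v n) 2 := fun n => hBlM _ _ (h.spos n)
  have hVr : MemLp V 2 (volume.restrict (ball z (2 * τ))) := by
    refine (h.loc (‖z‖ + 2 * τ)).mono_measure (Measure.restrict_mono ?_ le_rfl)
    intro y hy
    rw [mem_ball, dist_zero_right]
    rw [mem_ball, dist_eq_norm] at hy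
    calc ‖y‖ = ‖z + (y - z)‖ := by congr 1; abel
      _ ≤ ‖z‖ + ‖y - z‖ := norm_add_le _ _
      _ < ‖z‖ + 2 * τ := by linarith
  have hvr : ∀ n, MemLp (v n) 2 (volume.restrict (ball z (2 * τ))) := fun n =>
    (hvM n).restrict _
  set f : ℕ → E → E := fun n y => v n y - c with hf
  have hfr : ∀ n, MemLp (f n) 2 (volume.restrict (ball z (2 * τ))) := fun n =>
    (hvr n).sub (memLp_const_ball c z (2 * τ))
  have hfd : ∀ n, DivFreeIn (ball z (2 * τ)) (f n) := by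
    intro n η hη
    obtain ⟨hi, h0⟩ := integral_fderiv_const hη.1 c
    have h1 : Integrable (fun y => fderiv ℝ η y (v n y)) := by
      have := integrable_inner hη.1.gradient.memLp (hvM n)
      simpa only [inner_gradient] using this
    have h2 : (fun y => fderiv ℝ η y (f n y))
        = fun y => fderiv ℝ η y (v n y) - fderiv ℝ η y c := by
      funext y
      rw [hf, map_sub]
    rw [h2, integral_sub h1 hi, h0, hBlD _ _ (h.spos n) η hη.1, sub_zero]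
  choose ac rc hac hrcv hrce hrcs using fun n => hcut z τ hτ0 (f n) (hfr n) (hfd n)
  -- the scaled tube
  set rσ : E → E := fun y => r (σ⁻¹ • (y - z)) with hrσ
  have hpσ := hScale b r hp z σ hσ0
  have hsqσ : sq rσ = σ ^ 3 * sq r := hSq r z σ hσ0
  have hσL : σ * L ≤ 2 * τ := by
    rw [hτσ]
    nlinarith
  have hvσ : VanOff (closedBall z (2 * τ)) rσ := by
    have h1 := ae_scale hvan z hσ0
    filter_upwards [h1] with y hy hyn
    apply hy
    intro hmem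
    apply hyn
    have h2 := hCD hmem
    rw [mem_closedBall, dist_zero_right, norm_smul, norm_inv, Real.norm_eq_abs,
      abs_of_pos hσ0, inv_mul_le_iff₀ hσ0] at h2
    rw [mem_closedBall, dist_eq_norm]
    exact h2.trans hσL
  set Zσ : Set E := (fun y => σ⁻¹ • (y - z)) ⁻¹' Z with hZσ
  have hZσo : IsOpen Zσ := hZo.preimage (by fun_prop)
  have hZσv : volume.real Zσ = σ ^ 3 * V₀ := volume_real_preimage Z z hσ0
  have hZσb : Zσ ⊆ ball z τ := by
    intro y hy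
    have h2 := hCD (Or.inl (hZC hy))
    rw [mem_closedBall, dist_zero_right, norm_smul, norm_inv, Real.norm_eq_abs,
      abs_of_pos hσ0, inv_mul_le_iff₀ hσ0] at h2
    rw [mem_ball, dist_eq_norm]
    refine lt_of_le_of_lt h2 ?_
    rw [hτσ]
    nlinarith
  -- the variation
  set rn : ℕ → E → E := fun n y => (-1 : ℝ) • rc n y + (-‖c‖) • rσ y with hrn
  have hpn : ∀ n, Pot (fun y => (-1 : ℝ) • ac n y + (-‖c‖) • (σ • b (σ⁻¹ • (y - z)))) (rn n) :=
    fun n => ((hac n).smul (-1)).add (hpσ.smul (-‖c‖))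
  have hvn : ∀ n, VanOff (closedBall z (2 * τ)) (rn n) := fun n =>
    ((hrcv n).smul (-1)).add (hvσ.smul (-‖c‖))
  choose bn hbn hbnv hbns using fun n =>
    hPot z (2 * τ) (by positivity) (rn n) ((hpn n).sol (hvn n))
  have hipn : ∀ n, |ip (rn n) (bn n)| ≤ 4 * τ * sq (rn n) := fun n =>
    abs_ip_le_of (hbn n) hτ0 (hbns n)
  have h0n : ∀ n, ∀ᵐ y, y ∈ Zσ → bl u (x n) (s n) y + rn n y = 0 := by
    intro n
    filter_upwards [hrce n] with y hy hyZ
    have h1 : rc n y = v n y - c := hy (hZσb hyZ)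
    have h2 : rσ y = e := hre _ hyZ
    show v n y + ((-1 : ℝ) • rc n y + (-‖c‖) • rσ y) = 0
    rw [h1, h2, neg_smul, neg_smul, ← hce, one_smul]
    abel
  -- the norms
  set ηn : ℕ → ℝ := fun n => sqOn (ball z (2 * τ)) (fun y => v n y - V y) with hηn
  have hη0 : Tendsto ηn atTop (𝓝 0) := by
    have h1 := hStrong z (4 * τ) (by positivity) hsub4
    have h2 : 4 * τ / 2 = 2 * τ := by ring
    rw [h2] at h1
    exact h1
  set W : ℝ := sqOn (ball z (2 * τ)) (fun y => V y - c) with hW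
  have hWle : W ≤ m ^ 2 * volume.real (ball z (2 * τ)) :=
    sqOn_const_le hVr hF.ae hgpos fun y hy => hF1 y (ball_subset_ball hτ1 hy)
  set B : ℕ → ℝ := fun n => √C₀ * (√(ηn n) + √W) + ‖c‖ * √(sq rσ) with hB
  have hB0 : ∀ n, 0 ≤ B n := fun n => by positivity
  have hSB : ∀ n, √(sq (rn n)) ≤ B n := by
    intro n
    have h1 : √(sq (rn n)) ≤ √(sq (fun y => (-1 : ℝ) • rc n y))
        + √(sq (fun y => (-‖c‖) • rσ y)) :=
      sqrt_sq_add_le ((hac n).memLp₂.const_smul (-1 : ℝ)) (hpσ.memLp₂.const_smul (-‖c‖))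
    have h2 : √(sq (fun y => (-1 : ℝ) • rc n y)) = √(sq (rc n)) := by
      rw [sq_smul]; norm_num
    have h3 : √(sq (fun y => (-‖c‖) • rσ y)) = ‖c‖ * √(sq rσ) := by
      rw [sq_smul, Real.sqrt_mul (sq_nonneg _), neg_sq, Real.sqrt_sq hc0]
    have h4 : √(sq (rc n)) ≤ √C₀ * √(sqOn (ball z (2 * τ)) (f n)) := by
      rw [← Real.sqrt_mul hC₀.le]
      exact Real.sqrt_le_sqrt (hrcs n)
    have h5 : √(sqOn (ball z (2 * τ)) (f n)) ≤ √(ηn n) + √W := by
      have h6 := sqrt_sqOn_add_le (S := ball z (2 * τ)) measurableSet_ball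
        (v := fun y => v n y - V y) (w := fun y => V y - c) ((hvr n).sub hVr)
        (hVr.sub (memLp_const_ball c z (2 * τ)))
      have h7 : (fun y => v n y - V y + (V y - c)) = f n := by
        funext y
        show v n y - V y + (V y - c) = v n y - c
        abel
      rw [h7] at h6
      exact h6
    rw [h2, h3] at h1
    refine h1.trans ?_
    have h8 : √(sq (rc n)) ≤ √C₀ * (√(ηn n) + √W) :=
      h4.trans (mul_le_mul_of_nonneg_left h5 (Real.sqrt_nonneg _))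
    show √(sq (rc n)) + ‖c‖ * √(sq rσ) ≤ √C₀ * (√(ηn n) + √W) + ‖c‖ * √(sq rσ)
    linarith
  set B' : ℝ := √C₀ * (√0 + √W) + ‖c‖ * √(sq rσ) with hB'
  have hBlim : Tendsto B atTop (𝓝 B') := by
    have h1 : Tendsto (fun n => √(ηn n)) atTop (𝓝 (√0)) :=
      (Real.continuous_sqrt.tendsto 0).comp hη0
    exact ((h1.add_const _).const_mul _).add_const _
  have hB'0 : 0 ≤ B' := by positivity
  -- the inequality for large `n`
  have hlim3 : Tendsto (fun n => s n ^ 3 * B n ^ 2) atTop (𝓝 0) := by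
    have := (h.slim.pow 3).mul (hBlim.pow 2)
    simpa using this
  have hev3 : ∀ᶠ n in atTop, s n ^ 3 * B n ^ 2 ≤ 3 :=
    (hlim3.eventually_le_const (by norm_num))
  have hevΩ := eventually_subset h (z := z) (ρ := 2 * τ) (m := g z / 2) (by positivity)
    (fun z' hz' => hgball z' (hsub2 hz'))
  have hineq : ∀ᶠ n in atTop, Λ / 3 * (σ ^ 3 * V₀) * (√3 - √(s n ^ 3 * B n ^ 2)) ^ 2
      ≤ (Λ + s n * (4 * τ)) * B n ^ 2 := by
    filter_upwards [hev3, hevΩ] with n h3 hΩ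
    have hS0 := sq_nonneg' (rn n)
    have hsn := h.spos n
    have hSB2 : sq (rn n) ≤ B n ^ 2 := by
      have h1 := Real.sq_sqrt hS0
      have h2 := hSB n
      have h4 := Real.sqrt_nonneg (sq (rn n))
      rw [← h1]
      exact pow_le_pow_left₀ h4 h2 2
    have h5 : s n ^ 3 * sq (rn n) ≤ 3 := by
      refine le_trans ?_ h3
      gcongr
    have h6 := hNeedle (bn n) (rn n) (hbn n) (x n) (s n) hsn
      ((hvn n).mono fun y hy => subset_closure (hΩ y hy)) h5 Zσ hZσo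
      (fun y hy => hΩ y (ball_subset_closedBall
        (ball_subset_ball (by linarith : τ ≤ 2 * τ) (hZσb hy)))) (h0n n)
    rw [hZσv] at h6
    exact needle_mono hc.pos (by positivity) hsn hτ0 hS0 (hB0 n) (hSB n) h3 (hipn n) h6
  have hfin := limit_ineq hc.pos h.slim hBlim hineq
  -- the numbers
  refine numeric (S := σ ^ 3) (m := m) (B := B') hc0 hε hZv hK0 (by positivity) hεc hm0.le le_rfl
    hB'0 ?_ hfin
  have hS0 : (0 : ℝ) ≤ σ ^ 3 := by positivity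
  have hW2 : √W ≤ √(σ ^ 3) * (m * √(8 * M ^ 3 * v₁)) := by
    have h1 : W ≤ σ ^ 3 * (m ^ 2 * (8 * M ^ 3 * v₁)) := by
      refine hWle.trans (le_of_eq ?_)
      rw [volume_real_ball z (by positivity), hτσ]
      ring
    refine (Real.sqrt_le_sqrt h1).trans (le_of_eq ?_)
    rw [Real.sqrt_mul hS0, Real.sqrt_mul (sq_nonneg m), Real.sqrt_sq hm0.le]
  have hr2 : √(sq rσ) ≤ √(σ ^ 3) * √((1 + ε) * V₀) := by
    rw [hsqσ, Real.sqrt_mul hS0]
    gcongr
  calc B' = √C₀ * √W + ‖c‖ * √(sq rσ) := by rw [hB', Real.sqrt_zero, zero_add]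
    _ ≤ √C₀ * (√(σ ^ 3) * (m * √(8 * M ^ 3 * v₁)))
        + ‖c‖ * (√(σ ^ 3) * √((1 + ε) * V₀)) := by gcongr
    _ = √(σ ^ 3) * (K * m + ‖c‖ * √((1 + ε) * V₀)) := by rw [hK]; ring

end Pool.Agent.Helper43.Curl
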